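import Pool.Agent.H48.ToB

set_option autoImplicit false

namespace Pool.Agent.Results.MP_81590e_gt.Yes

open Pool.Agent.H48.ToDefs
open scoped Manifold

theorem result (M : Type) [TopologicalSpace M] [ChartedSpace E2 M] [IsManifold 𝓘(ℝ, E2) 1 M]
    (r : M → E3) (hr : Imm E2 r) (h : Torse E2 r) : BECP E2 r :=
  Pool.Agent.H48.ToB.becp hr (Pool.Agent.H48.ToB.semi h)

end Pool.Agent.Results.MP_81590e_gt.Yes
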